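import Pool.Agent.Helper58.SU.AllH
import Pool.Agent.Helper65.GW.M_MEA8

/-!
# Project SU: theorem U
-/

set_option autoImplicit false

namespace Pool.Agent.Helper58.SU

/-- theorem U: the Goldbach-Knjzek-Rivera property in short windows, for almost all even integers -/
theorem finU : StFinU := AllSU.finU_of (Pool.Agent.Helper65.GW.hMEA8 AllSU.bkb)

end Pool.Agent.Helper58.SU
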