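import Pool.Agent.Helper58.SU.Top
import Pool.Agent.Helper14.GW.M_NQP
import Pool.Agent.Helper14.GW.M_PART
import Pool.Agent.Helper17.GW.M_BKB
import Pool.Agent.Helper17.GW.M_DEC4
import Pool.Agent.Helper17.GW.M_MOBCfin
import Pool.Agent.Helper26.GW.M_CSV
import Pool.Agent.Helper26.GW.M_MWL
import Pool.Agent.Helper38.GW.M_SMD
import Pool.Agent.Helper39.GW.M_ES2C
import Pool.Agent.Helper45.GW.M_HIW
import Pool.Agent.Helper47.GW.M_HBI
import Pool.Agent.Helper47.GW.M_NQC
import Pool.Agent.Helper63.GW.M_TTW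
import Pool.Agent.Helper67.GW.M_NFB
import Pool.Agent.Helper7.GW.M_TOW
import Pool.Agent.Helper70.GW.M_GME
import Pool.Agent.Helper78.GW.M_CL1
import Pool.Agent.Helper78.GW.M_CL3
import Pool.Agent.Helper8.GW.M_FO4
import Pool.Agent.Helper8.GW.M_HB4
import Pool.Agent.Helper81.GW.M_SMW
import Pool.Agent.Helper93.GW.M_BKS
import Pool.Agent.Helper93.GW.M_BKT
import Pool.Agent.Helper95.GW.M_TUW
import Pool.Agent.Helper99.GW.M_CL2

/-!
# Project SU: assembly, with the mean value of eight block polynomials as the only input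
-/

set_option autoImplicit false

namespace Pool.Agent.Helper58.SU

open Pool.Agent.Helper23.GK
open Pool.Agent.Helper63.GW

namespace AllSU

theorem bkb : StBkb := Pool.Agent.Helper17.GW.hBKB
theorem nfb : StNfb := Pool.Agent.Helper67.GW.hNFB
theorem nqp : StNqp := Pool.Agent.Helper14.GW.hNQP
theorem nqc : StNqc := Pool.Agent.Helper47.GW.hNQC nfb nqp
theorem part : StPart := Pool.Agent.Helper14.GW.hPART
theorem dec4 : StDec4 := Pool.Agent.Helper17.GW.hDEC4
  (Pool.Agent.Helper8.GW.hHB4 Pool.Agent.Helper47.GW.hHBI) Pool.Agent.Helper8.GW.hFO4 bkb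
theorem mobc : StMobc := Pool.Agent.Helper17.GW.hMOBC
theorem es2c : StEs2c := Pool.Agent.Helper39.GW.hES2C_of AllGK.vin AllGK.ems AllGK.res
theorem bkt : StBkt := Pool.Agent.Helper93.GW.hBKT mobc es2c
theorem bks : StBks := Pool.Agent.Helper93.GW.hBKS Pool.Agent.Helper26.GW.hCSV bkb
theorem smw : StSmw := Pool.Agent.Helper81.GW.hSMW Pool.Agent.Helper38.GW.hSMD bkb
theorem mwl : StMwl := Pool.Agent.Helper26.GW.hMWL smw bks bkb

theorem tuw (h : StMea8) : StTuw := Pool.Agent.Helper95.GW.hTUW part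
  (Pool.Agent.Helper78.GW.hCL1 bks bkb h nfb nqp)
  (Pool.Agent.Helper99.GW.hCL2 bkt bkb h (Pool.Agent.Helper70.GW.hGME h bkb) nfb nqp)
  (Pool.Agent.Helper78.GW.hCL3 mwl bkb h nfb nqp)

theorem tow (h : StMea8) : StTow := Pool.Agent.Helper7.GW.hTOW
  (Pool.Agent.Helper45.GW.hHIW dec4 (tuw h) bkb nfb nqp nqc) nfb nqp AllGK.low

theorem totw (h : StMea8) : StTotw := Pool.Agent.Helper63.GW.hTTW (tow h) nfb

/-- theorem U from the mean value of eight block polynomials -/
theorem finU_of (h : StMea8) : StFinU := TopSU.finU (totw h) h bkt bks bkb dec4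

end AllSU

end Pool.Agent.Helper58.SU
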