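import Pool.Agent.Helper23.GK.StG

/-!
# Project SU (MP_b454d1_nt): Goldbach-Knjzek-Rivera in short windows (U) and in short intervals (S)

Definitions. `SI f y h α` is the exponential sum over `(y, y + h]`, `wsq F W J` is the sum of the
squares of the integrals of `F` over the windows `[jW, (j+1)W]`, `|j| ≤ J`.
-/

set_option autoImplicit false

namespace Pool.Agent.Helper58.SU

open Finset ArithmeticFunction MeasureTheory
open Pool.Agent.Helper48.BK (ex th Sx Apx)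
open Pool.Agent.Helper2.MR (ch)
open Pool.Agent.Helper15.AB (IsW)
open Pool.Agent.Helper23.GK

/-- exponential sum over `(y, y + h]` -/
noncomputable def SI (f : ℕ → ℝ) (y h : ℕ) (α : ℝ) : ℂ :=
  ∑ n ∈ Ioc y (y + h), (f n : ℂ) * ex (n * α)

/-- sum of squares of the integrals over the windows `[jW, (j+1)W]`, `|j| ≤ J` -/
noncomputable def wsq (F : ℝ → ℝ) (W : ℝ) (J : ℕ) : ℝ :=
  ∑ j ∈ Icc (-(J : ℤ)) J, (∫ t in ((j : ℝ) * W)..(((j : ℝ) + 1) * W), F t) ^ 2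

/-- the oscillating integral `∫ exp(i(2πβ e^v + t v)) dv` over `[log y, log(y+h)]` -/
noncomputable def JJb (y h β t : ℝ) : ℂ :=
  ∫ v in (Real.log y)..(Real.log (y + h)),
    Complex.exp (((2 * Real.pi * β * Real.exp v + t * v : ℝ) : ℂ) * Complex.I)

open Classical in
/-- discrepancy of the primes in `(N, N+h]` and the class `u` modulo `q` -/
noncomputable def dsc (N h q u : ℕ) : ℝ :=
  ∑ m ∈ (Ioc N (N + h)).filter (fun m => m ≡ u [MOD q]), th m -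
    (if Nat.Coprime u q then (h : ℝ) / Nat.totient q else 0)

/-- weighted number of representations `N = p + (N - p)` with `a < p ≤ b` -/
noncomputable def RU (N : ℕ) (a b : ℝ) : ℝ :=
  ∑ p ∈ (Ioc ⌊a⌋₊ ⌊b⌋₊).filter (fun p => p.Prime ∧ p < N ∧ (N - p).Prime),
    Real.log p * Real.log ((N - p : ℕ) : ℝ)

/-- the exponent `(κ - 2/5)/2` -/
noncomputable def dl (κ : ℝ) : ℝ := (κ - 2 / 5) / 2

/-- starting point of the block of `N ∈ (X, 2X]`, blocks `(X + iH, X + (i+1)H]` -/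
def ZB (X H N : ℕ) : ℕ := X + H * ((N - X - 1) / H)

/-- start of the window of primes belonging to the block of `N` -/
noncomputable def yB (c : ℝ) (X H N : ℕ) : ℕ := ⌊c * √(ZB X H N : ℝ)⌋₊

open Classical in
/-- exceptional set: even `N ∈ s` for which the asymptotic formula fails for the primes in
`(c√N, c√N + N^κ]` -/
noncomputable def ExU (c κ : ℝ) (A : ℕ) (s : Finset ℕ) : Finset ℕ :=
  s.filter (fun N => Even N ∧ (N : ℝ) ^ κ / Real.log N ^ A <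
    |RU N (c * √(N : ℝ)) (c * √(N : ℝ) + (N : ℝ) ^ κ) - SS N * (N : ℝ) ^ κ|)

/-! ### interface with the core -/

/-- TOTW (core; the Gaussian mean of `GB` over windows): `W ≤ X^{1/5-ε}`, `T ≤ X^{1/2}`. -/
def StTotw : Prop := ∀ w, IsW w → ∀ ε : ℝ, 0 < ε →
  ∀ A B : ℕ, ∃ X0 : ℕ, ∀ X : ℕ, X0 ≤ X → ∀ q u : ℕ, 1 ≤ q → (q : ℝ) ≤ Real.log X ^ B →
  ∀ T W : ℝ, 1 ≤ W → W ≤ (X : ℝ) ^ (1 / 5 - ε) → 1 ≤ T → T ≤ √(X : ℝ) → ∀ J : ℕ,
  wsq (fun t => Real.exp (-(t / T) ^ 2) * ‖GB w X q u t‖) W J ≤ 1 / Real.log X ^ A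

/-- WINU (primes in progressions in intervals of length `h ≤ 4X^κ`, `κ > 2/5`, for almost all
starting points in `(X, 2X]`). -/
def StWinu : Prop := ∀ κ : ℝ, 2 / 5 < κ → κ < 1 / 2 → ∀ A B : ℕ, ∃ X0 : ℕ, ∀ X : ℕ, X0 ≤ X →
  ∀ q u h : ℕ, 1 ≤ q → (q : ℝ) ≤ Real.log X ^ B → (h : ℝ) ≤ 4 * (X : ℝ) ^ κ →
  ∑ N ∈ Ioc X (2 * X), dsc N h q u ^ 2 ≤ X * ((X : ℝ) ^ κ) ^ 2 / Real.log X ^ A

end Pool.Agent.Helper58.SU
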