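import Pool.Agent.Helper58.SU.Defs
import Pool.Agent.Helper63.GW.StB

/-!
# Project SU, module TWQ: from the Gaussian window functional to sharp windows
-/

set_option autoImplicit false

namespace Pool.Agent.Helper58.SU

open Finset ArithmeticFunction MeasureTheory
open Pool.Agent.Helper48.BK (ex th Sx Apx)
open Pool.Agent.Helper2.MR (ch)
open Pool.Agent.Helper15.AB (IsW)
open Pool.Agent.Helper23.GK
open Pool.Agent.Helper63.GW (NF NQ)

namespace TWQ

theorem int_gauss {W : ℝ} (hW : 0 < W) : Integrable (fun x : ℝ => Real.exp (-(x / W) ^ 2)) := by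
  have h := integrable_exp_neg_mul_sq (b := 1 / W ^ 2) (by positivity)
  refine h.congr (Filter.Eventually.of_forall fun x => ?_)
  show Real.exp (-(1 / W ^ 2) * x ^ 2) = Real.exp (-(x / W) ^ 2)
  congr 1
  field_simp

/-- the inner integral as a convolution -/
theorem conv_eq (F : ℝ → ℝ) (W c : ℝ) :
    (∫ s : ℝ, F s * Real.exp (-((s - c) / W) ^ 2)) =
      convolution F (fun x : ℝ => Real.exp (-(x / W) ^ 2)) (ContinuousLinearMap.mul ℝ ℝ) volume c := by
  rw [convolution_def]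
  apply integral_congr_ae
  refine Filter.Eventually.of_forall fun s => ?_
  show F s * Real.exp (-((s - c) / W) ^ 2) = F s * Real.exp (-((c - s) / W) ^ 2)
  congr 2
  ring

theorem int_inner {F : ℝ → ℝ} (hF : NF F) {W : ℝ} (hW : 0 < W) :
    Integrable (fun c : ℝ => ∫ s : ℝ, F s * Real.exp (-((s - c) / W) ^ 2)) := by
  have h := hF.2.2.2.integrable_convolution (ContinuousLinearMap.mul ℝ ℝ) (int_gauss hW)
  refine h.congr (Filter.Eventually.of_forall fun c => ?_)
  exact (conv_eq F W c).symm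

theorem int_mul {F : ℝ → ℝ} (hF : NF F) {W : ℝ} (hW : 0 < W) (c : ℝ) :
    Integrable (fun s : ℝ => F s * Real.exp (-((s - c) / W) ^ 2)) := by
  refine hF.2.2.2.mul_bdd (c := 1) (by fun_prop) (Filter.Eventually.of_forall fun s => ?_)
  rw [Real.norm_of_nonneg (Real.exp_pos _).le]
  apply Real.exp_le_one_iff.2
  nlinarith [sq_nonneg ((s - c) / W)]

theorem inner_nonneg {F : ℝ → ℝ} (hF : NF F) (W c : ℝ) :
    0 ≤ ∫ s : ℝ, F s * Real.exp (-((s - c) / W) ^ 2) :=
  integral_nonneg fun s => mul_nonneg (hF.2.1 s) (Real.exp_pos _).le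

theorem inner_le {F : ℝ → ℝ} (hF : NF F) {W : ℝ} (hW : 0 < W) (c : ℝ) :
    (∫ s : ℝ, F s * Real.exp (-((s - c) / W) ^ 2)) ≤ ∫ s : ℝ, F s := by
  apply integral_mono (int_mul hF hW c) hF.2.2.2
  intro s
  show F s * Real.exp (-((s - c) / W) ^ 2) ≤ F s
  have h1 : Real.exp (-((s - c) / W) ^ 2) ≤ 1 := by
    apply Real.exp_le_one_iff.2
    nlinarith [sq_nonneg ((s - c) / W)]
  have := mul_le_mul_of_nonneg_left h1 (hF.2.1 s)
  linarith

theorem int_sq {F : ℝ → ℝ} (hF : NF F) {W : ℝ} (hW : 0 < W) :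
    Integrable (fun c : ℝ => (∫ s : ℝ, F s * Real.exp (-((s - c) / W) ^ 2)) ^ 2) := by
  have h1 := int_inner hF hW
  have h2 := h1.mul_bdd (c := ∫ s : ℝ, F s) h1.aestronglyMeasurable
    (Filter.Eventually.of_forall fun c => by
      rw [Real.norm_of_nonneg (inner_nonneg hF W c)]
      exact inner_le hF hW c)
  refine h2.congr (Filter.Eventually.of_forall fun c => ?_)
  show _ * _ = _ ^ 2
  ring

/-- lower bound of the inner integral on a window -/
theorem inner_ge {F : ℝ → ℝ} (hF : NF F) {W : ℝ} (hW : 0 < W) (a c : ℝ) (h1 : a ≤ c)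
    (h2 : c ≤ a + W) :
    Real.exp (-1) * (∫ t in a..(a + W), F t) ≤ ∫ s : ℝ, F s * Real.exp (-((s - c) / W) ^ 2) := by
  have haW : a ≤ a + W := by linarith
  rw [intervalIntegral.integral_of_le haW, ← integral_const_mul]
  calc ∫ t in Set.Ioc a (a + W), Real.exp (-1) * F t
      ≤ ∫ t in Set.Ioc a (a + W), F t * Real.exp (-((t - c) / W) ^ 2) := by
        apply setIntegral_mono_on ((hF.2.2.2.const_mul _).integrableOn)
          (int_mul hF hW c).integrableOn measurableSet_Ioc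
        intro t ht
        rw [mul_comm]
        apply mul_le_mul_of_nonneg_left _ (hF.2.1 t)
        apply Real.exp_le_exp.2
        have h3 : |(t - c) / W| ≤ 1 := by
          rw [abs_div, abs_of_pos hW, div_le_one hW, abs_le]
          constructor
          · linarith [ht.1]
          · linarith [ht.2]
        have h4 : ((t - c) / W) ^ 2 ≤ 1 := by
          rw [← sq_abs]
          nlinarith [abs_nonneg ((t - c) / W)]
        linarith
    _ ≤ ∫ s : ℝ, F s * Real.exp (-((s - c) / W) ^ 2) := by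
        apply setIntegral_le_integral (int_mul hF hW c)
        exact Filter.Eventually.of_forall fun s => mul_nonneg (hF.2.1 s) (Real.exp_pos _).le

/-- integrals over consecutive windows -/
theorem sum_win {g : ℝ → ℝ} (hg : Integrable g) (hg0 : ∀ x, 0 ≤ g x) {W : ℝ} (hW : 0 < W) (J : ℕ) :
    ∑ j ∈ Icc (-(J : ℤ)) J, (∫ t in ((j : ℝ) * W)..(((j : ℝ) + 1) * W), g t) ≤ ∫ t : ℝ, g t := by
  have key : ∀ n : ℕ, ∑ i ∈ range n, (∫ t in ((((i : ℤ) - J : ℤ) : ℝ) * W)..(((((i : ℤ) - J : ℤ) : ℝ) + 1) * W), g t)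
      = ∫ t in ((-(J : ℝ)) * W)..(((n : ℝ) - J) * W), g t := by
    intro n
    induction n with
    | zero =>
      simp
    | succ n ih =>
      rw [Finset.sum_range_succ, ih]
      have h1 : ((((n : ℤ) - J : ℤ) : ℝ)) = (n : ℝ) - J := by push_cast; ring
      have h2 : (((n + 1 : ℕ) : ℝ) - J) = ((n : ℝ) - J) + 1 := by push_cast; ring
      rw [h1, h2]
      exact intervalIntegral.integral_add_adjacent_intervals hg.intervalIntegrable
        hg.intervalIntegrable
  have hs : ∑ j ∈ Icc (-(J : ℤ)) J, (∫ t in ((j : ℝ) * W)..(((j : ℝ) + 1) * W), g t) =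
      ∑ i ∈ range (2 * J + 1), (∫ t in ((((i : ℤ) - J : ℤ) : ℝ) * W)..(((((i : ℤ) - J : ℤ) : ℝ) + 1) * W), g t) := by
    symm
    apply Finset.sum_bij (fun (i : ℕ) _ => (i : ℤ) - J)
    · intro i hi
      rw [Finset.mem_range] at hi
      rw [Finset.mem_Icc]
      constructor <;> omega
    · intro a _ b _ hab
      have : (a : ℤ) - J = (b : ℤ) - J := hab
      omega
    · intro j hj
      rw [Finset.mem_Icc] at hj
      refine ⟨(j + J).toNat, ?_, ?_⟩
      · rw [Finset.mem_range]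
        omega
      · omega
    · intro i _
      rfl
  rw [hs, key]
  have hle : (-(J : ℝ)) * W ≤ (((2 * J + 1 : ℕ) : ℝ) - J) * W := by
    apply mul_le_mul_of_nonneg_right _ hW.le
    push_cast
    have : (0 : ℝ) ≤ J := Nat.cast_nonneg J
    linarith
  rw [intervalIntegral.integral_of_le hle]
  exact setIntegral_le_integral hg (Filter.Eventually.of_forall hg0)

/-- monotonicity of `wsq` -/
theorem wsq_mono {F G : ℝ → ℝ} (hF : NF F) (hG : NF G) (hle : ∀ t, F t ≤ G t) {W : ℝ} (hW : 0 < W)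
    (J : ℕ) : wsq F W J ≤ wsq G W J := by
  unfold wsq
  apply Finset.sum_le_sum
  intro j _
  have hjW : ((j : ℝ) + 1) * W = (j : ℝ) * W + W := by ring
  rw [hjW]
  apply pow_le_pow_left₀ (intervalIntegral.integral_nonneg (by linarith) fun t _ => hF.2.1 t)
  apply intervalIntegral.integral_mono_on (by linarith) hF.2.2.2.intervalIntegrable
    hG.2.2.2.intervalIntegrable
  intro t _
  exact hle t

theorem cont_GB (w : ℝ → ℝ) (X q u : ℕ) : Continuous (GB w X q u) := by
  unfold GB ch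
  fun_prop

theorem norm_ch (t : ℝ) (n : ℕ) : ‖ch t n‖ = 1 := by
  unfold ch
  exact Complex.norm_exp_ofReal_mul_I _

theorem bdd_GB (w : ℝ → ℝ) (X q u : ℕ) : ∃ M : ℝ, ∀ t, ‖GB w X q u t‖ ≤ M := by
  refine ⟨∑ m ∈ Icc 1 (3 * X), ‖((gw w X q u m : ℝ) : ℂ) / m‖, fun t => ?_⟩
  unfold GB
  refine (norm_sum_le _ _).trans (Finset.sum_le_sum fun m _ => ?_)
  rw [norm_mul, norm_ch, mul_one]

theorem nf_GB (w : ℝ → ℝ) (X q u : ℕ) {T : ℝ} (hT : 0 < T) {k : ℝ} (hk : 0 < k) :
    NF (fun t => Real.exp (-(t / T) ^ 2 / k) * ‖GB w X q u t‖) := by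
  obtain ⟨M, hM⟩ := bdd_GB w X q u
  have hc : Continuous (fun t => Real.exp (-(t / T) ^ 2 / k) * ‖GB w X q u t‖) := by
    have := cont_GB w X q u
    fun_prop
  have hM0 : 0 ≤ M := (norm_nonneg _).trans (hM 0)
  have hg : Integrable (fun t : ℝ => Real.exp (-(t / T) ^ 2 / k)) := by
    have h := integrable_exp_neg_mul_sq (b := 1 / (T ^ 2 * k)) (by positivity)
    refine h.congr (Filter.Eventually.of_forall fun x => ?_)
    show Real.exp (-(1 / (T ^ 2 * k)) * x ^ 2) = Real.exp (-(x / T) ^ 2 / k)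
    congr 1
    field_simp
  refine ⟨hc.measurable, fun s => by positivity, ⟨M, fun s => ?_⟩, ?_⟩
  · have h1 : Real.exp (-(s / T) ^ 2 / k) ≤ 1 := by
      apply Real.exp_le_one_iff.2
      have : 0 ≤ (s / T) ^ 2 / k := by positivity
      have h2 : -(s / T) ^ 2 / k = -((s / T) ^ 2 / k) := by ring
      linarith
    calc _ ≤ 1 * M := mul_le_mul h1 (hM s) (norm_nonneg _) zero_le_one
      _ = M := one_mul M
  · exact hg.mul_bdd (c := M) (cont_GB w X q u).norm.aestronglyMeasurable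
      (Filter.Eventually.of_forall fun s => by
        rw [norm_norm]
        exact hM s)

theorem wsq_le {F : ℝ → ℝ} (hF : NF F) {W : ℝ} (hW : 0 < W) (J : ℕ) :
    wsq F W J ≤ Real.exp 2 * NQ W F := by
  have h1 := sum_win (int_sq hF hW) (fun x => sq_nonneg _) hW J
  have h2 : ∀ j ∈ Icc (-(J : ℤ)) J,
      W * (Real.exp (-2) * (∫ t in ((j : ℝ) * W)..(((j : ℝ) + 1) * W), F t) ^ 2) ≤
      ∫ c in ((j : ℝ) * W)..(((j : ℝ) + 1) * W), (∫ s : ℝ, F s * Real.exp (-((s - c) / W) ^ 2)) ^ 2 := by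
    intro j _
    have hjW : ((j : ℝ) + 1) * W = (j : ℝ) * W + W := by ring
    rw [hjW]
    have hI0 : 0 ≤ ∫ t in ((j : ℝ) * W)..((j : ℝ) * W + W), F t :=
      intervalIntegral.integral_nonneg (by linarith) fun t _ => hF.2.1 t
    have hc : (∫ _ in ((j : ℝ) * W)..((j : ℝ) * W + W),
        (Real.exp (-1) * (∫ t in ((j : ℝ) * W)..((j : ℝ) * W + W), F t)) ^ 2) =
        W * (Real.exp (-2) * (∫ t in ((j : ℝ) * W)..((j : ℝ) * W + W), F t) ^ 2) := by
      rw [intervalIntegral.integral_const, smul_eq_mul, mul_pow, ← Real.exp_nat_mul]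
      norm_num
    rw [← hc]
    apply intervalIntegral.integral_mono_on (by linarith) (by simp)
      (int_sq hF hW).intervalIntegrable
    intro c hc
    apply pow_le_pow_left₀ (mul_nonneg (Real.exp_pos _).le hI0)
    exact inner_ge hF hW _ c hc.1 hc.2
  have h3 := (Finset.sum_le_sum h2).trans h1
  rw [← Finset.mul_sum, ← Finset.mul_sum] at h3
  have h4 : Real.exp (-2) * wsq F W J ≤ NQ W F := by
    unfold NQ wsq
    rw [one_div, inv_mul_eq_div, le_div_iff₀ hW]
    linarith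
  have h5 : Real.exp 2 * Real.exp (-2) = 1 := by rw [← Real.exp_add]; norm_num
  have h6 := mul_le_mul_of_nonneg_left h4 (Real.exp_pos 2).le
  rw [← mul_assoc, h5, one_mul] at h6
  exact h6

end TWQ

open TWQ in
/-- TWQ: `StTotw` from the window theorem of project GW -/
theorem hTWQ (h : Pool.Agent.Helper63.GW.StTow) : StTotw := by
  intro w hw ε hε A B
  set ε' : ℝ := min ε (1 / 20) with hε'
  have hε'0 : 0 < ε' := lt_min hε (by norm_num)
  obtain ⟨X0, hX0⟩ := h w hw (A + 1) B 0 ε' hε'0 (min_le_right _ _)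
  have hlog : Filter.Tendsto (fun X : ℕ => Real.log X) Filter.atTop Filter.atTop :=
    Real.tendsto_log_atTop.comp tendsto_natCast_atTop_atTop
  obtain ⟨X1, hX1⟩ := Filter.eventually_atTop.1 (hlog.eventually_ge_atTop (Real.exp 2))
  refine ⟨max (max X0 X1) 1, fun X hX q u hq hqB T W hW hWX hT hTX J => ?_⟩
  have hXX0 : X0 ≤ X := le_trans (le_trans (le_max_left _ _) (le_max_left _ _)) hX
  have hXX1 : X1 ≤ X := le_trans (le_trans (le_max_right _ _) (le_max_left _ _)) hX
  have hX1' : 1 ≤ X := le_trans (le_max_right _ _) hX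
  have hXr : (1 : ℝ) ≤ X := by exact_mod_cast hX1'
  have hL := hX1 X hXX1
  have hL0 : 0 < Real.log X := (Real.exp_pos 2).trans_le hL
  have hWX' : W ≤ (X : ℝ) ^ (1 / 5 - ε') := by
    refine hWX.trans (Real.rpow_le_rpow_of_exponent_le hXr ?_)
    have := min_le_left ε (1 / 20)
    linarith
  have h1 := hX0 X hXX0 q u W hq hqB hW hWX'
  rw [pow_zero, mul_one] at h1
  have hs : 0 < √(X : ℝ) := by linarith
  have hW0 : 0 < W := by linarith
  have hT0 : 0 < T := by linarith
  have hn1 := nf_GB w X q u hT0 (k := 1) one_pos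
  have hn2 := nf_GB w X q u hs (k := 2) two_pos
  have hle : ∀ t : ℝ, Real.exp (-(t / T) ^ 2 / 1) * ‖GB w X q u t‖ ≤
      Real.exp (-(t / √(X : ℝ)) ^ 2 / 2) * ‖GB w X q u t‖ := by
    intro t
    apply mul_le_mul_of_nonneg_right _ (norm_nonneg _)
    apply Real.exp_le_exp.2
    have h2 : (t / √(X : ℝ)) ^ 2 ≤ (t / T) ^ 2 := by
      rw [div_pow, div_pow]
      apply div_le_div_of_nonneg_left (sq_nonneg t) (by positivity)
      exact pow_le_pow_left₀ hT0.le hTX 2
    have h3 : 0 ≤ (t / √(X : ℝ)) ^ 2 := sq_nonneg _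
    linarith
  have h2 := (wsq_mono hn1 hn2 hle hW0 J).trans (wsq_le hn2 hW0 J)
  have h3 : wsq (fun t => Real.exp (-(t / T) ^ 2) * ‖GB w X q u t‖) W J =
      wsq (fun t => Real.exp (-(t / T) ^ 2 / 1) * ‖GB w X q u t‖) W J := by
    simp only [div_one]
  rw [h3]
  refine h2.trans ((mul_le_mul_of_nonneg_left h1 (Real.exp_pos 2).le).trans ?_)
  rw [mul_one_div, div_le_div_iff₀ (by positivity) (by positivity), one_mul, pow_succ, mul_comm]
  exact mul_le_mul_of_nonneg_left hL (by positivity)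

end Pool.Agent.Helper58.SU
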