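import Pool.Agent.Helper58.SU.Defs

/-!
# Project SU, part P: exponential sums over primes in short intervals `(y, y + h]`, `h ≥ y^{4/5+ε}`

Each statement is a `Prop`; the docstring contains a complete proof. `ℓ = log y`.
-/

set_option autoImplicit false

namespace Pool.Agent.Helper58.SU

open Finset ArithmeticFunction MeasureTheory
open Pool.Agent.Helper48.BK (ex th Sx Apx gs)
open Pool.Agent.Helper2.MR (ch)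
open Pool.Agent.Helper15.AB (IsW)
open Pool.Agent.Helper23.GK

/-- TIIS (type two sums in a short interval; adapt `Helper48/BK/M_TII.lean`, 288 lines).

Proof. Cauchy-Schwarz in `u`: the left side is at most
`(∑_u a_u²) ∑_{v,v'} |b_v b_{v'}| |∑_u e(uα(v-v'))|`, where `u` runs over the integers of `(P, 2P]` with
`y < uv ≤ y+h` and `y < uv' ≤ y+h` (and `v, v' > V`). If there is such a `u` then `v > y/(2P)`,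
`v, v' ≤ (y+h)/P`, `u |v - v'| < h`, so `|v-v'| < h/P`, and the `u` form an interval of at most
`h/v + 1 ≤ 2Ph/y + 1 =: N` integers, so the inner sum is at most `gs N ((v-v')α)` (GEO1). With
`|b_v b_{v'}| ≤ (b_v² + b_{v'}²)/2` the double sum is at most
`∑_v b_v² (N + 2 ∑_{1≤k≤h/P} gs N (kα))`, and GEO2 (`K = ⌊h/P⌋`) gives
`≤ C ∑ b_v² (h/(Pq) + 1)(N + q(1 + log q))`. -/
def StTiis : Prop := ∃ C : ℝ, 0 < C ∧ ∀ (y h P V q : ℕ) (b0 : ℤ) (α : ℝ) (a b : ℕ → ℝ), 1 ≤ y →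
  h ≤ y → 1 ≤ P → Apx α b0 q →
  ‖∑ u ∈ Ioc P (2 * P), ∑ v ∈ (Ioc V ((y + h) / u)).filter (fun v => y < u * v),
      ((a u * b v : ℝ) : ℂ) * ex (u * v * α)‖ ^ 2 ≤
    C * (∑ u ∈ Ioc P (2 * P), a u ^ 2) * (∑ v ∈ Ioc 0 ((y + h) / P), b v ^ 2) *
      (((h : ℝ) / (P * q) + 1) * ((P : ℝ) * h / y + 1 + q * (1 + Real.log q)))

/-- VAUS (Vaughan's identity in a short interval; adapt `Helper48/BK/M_Vau.lean`, 518 lines).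

Proof. For a function `F` supported on `(y, y+h]` (here `F(n) = e(nα)`), `y ≥ U`, Vaughan's identity reads
`∑ Λ(n) F(n) = ∑_{d≤U} μ(d) ∑_l log l F(dl) - ∑_{j≤U²} c_j ∑_l F(jl) - ∑_{u>U} ∑_{v>U} a_u Λ(v) F(uv)`,
`c_j = ∑_{de=j, d,e≤U} μ(d)Λ(e)` (`|c_j| ≤ log j`), `a_u = ∑_{d∣u, d≤U} μ(d)` (`|a_u| ≤ τ(u)`).
(1) `∑_{l : jl ∈ (y,y+h]} e(jlα)` is a geometric sum with at most `h/j + 1` terms, so it is at most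
`gs (h/j+1) (jα) ≤ gs (h/j) (jα) + 1`; `StTI` of `Helper48/BK` with `x = h` gives
`∑_{j≤J} ≤ C(h/q + J + q) log² + J` for `J ≤ h`. The factor `log l` by partial summation costs
`2 log(2y)`. The first two sums are `≤ C (h/q + U² + q) log³ ≤ C(h/√q + U² + √(yq)) log³`.
(2) Third sum: dyadic `P = 2^i U`, `(P, 2P]`, `2^i U ≤ (y+h)/U` (empty otherwise), at most `3 log(2y)`
blocks. TIIS with `V = U`, `∑_{u≤2P} τ(u)² ≤ C P log³`, `∑_{v≤2y/P} Λ(v)² ≤ C (y/P) log y·...`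
(as in M_Vau), and
`y (h/(Pq)+1)(Ph/y + 1 + q(1+log q)) ≤ C log (h²/q + yh/P + Ph + yq) ≤ C log (h²/q + yh/U + yq)`
since `U ≤ P ≤ 2y/U`. Square root, sum over the blocks. -/
def StVaus : Prop := ∃ C : ℝ, 0 < C ∧ ∀ (y h U q : ℕ) (b0 : ℤ) (α : ℝ), 3 ≤ h → h ≤ y → 1 ≤ U →
  U ^ 2 ≤ h → q ≤ h → Apx α b0 q →
  ‖SI (fun n => Λ n) y h α‖ ≤ C * ((h : ℝ) / √q + √((y : ℝ) * h / U) + √((y : ℝ) * q) +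
    (U : ℝ) ^ 2) * Real.log y ^ 7

/-- SHP (sharp windows with a phase are averages of Gaussian windows; compare `StSha` of
`Helper23/GK/StF.lean` and its proof `Helper1/GK/M_SHA.lean`).

Proof. Let `k(s) = R e^{-R²s²/2}/√(2π)` (`∫ k = 1`). The difference is `∑_{m ≤ 3X} (g(m)/m) D_m` with
`D_m = 1_{y<m≤y+h} e(mβ) - ∫_{log y}^{log(y+h)} e(βe^v) k(v - log m) dv`
`= e(mβ) (1_{y<m≤y+h} - ∫ k(v - log m) dv) + ∫ (e(mβ) - e(βe^v)) k(v - log m) dv`.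
First part: as in M_SHA, `≤ C G (1/X)(1 + X/R) ≤ C G/R` in total. Second part: `e^v, m ≤ 3X`, so
`|e(mβ) - e(βe^v)| ≤ 2π|β||e^v - m| ≤ 6π|β|X |v - log m|`. For fixed `v ∈ [log y, log(y+h)]`,
`∑_{m≤3X} (1/m) |v - log m| k(v - log m) ≤ C/R`: for `m ≥ X/8` the numbers `log m` have gaps `≥ 1/(3X)` and
`1/m ≤ 8/X`, so this part is at most `(8/X) ∑_{j≥0} 2 sup_{s≥j/(3X)} |s|k(s)` `≤ C(1/X)(1 + X/R) ≤ C/R`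
(`|s|k(s) ≤ e^{-R|s|/4}` up to a constant, as `x e^{-x²/2} ≤ C e^{-x/4}`); for `m < X/8`: `v - log m ≥ log 4`
and `|s| k(s) ≤ C e^{-R s/4}..`, `∑_{m<X/8} (1/m) e^{-c R (v - log m)} ≤ C/R` (see `term_sha` in M_SHA).
Integrate over `v` (length `≤ h/y ≤ 2h/X`): second part `≤ C G |β| X (1/R)(h/X) = C G |β| h/R`. -/
def StShp : Prop := ∃ C : ℝ, 0 < C ∧ ∀ (g : ℕ → ℝ) (X y h : ℕ) (G R β : ℝ), 1 ≤ X → h ≤ X →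
  1 ≤ R → R ≤ X → 0 ≤ G → (∀ n, |g n| ≤ G) → (X : ℝ) / 2 ≤ y → y + h ≤ 3 * X →
  ‖∑ m ∈ Ioc y (y + h), ((g m / m : ℝ) : ℂ) * ex (m * β) -
    ((1 / √(2 * Real.pi) : ℝ) : ℂ) * ∫ v in (Real.log y)..(Real.log ((y : ℝ) + h)),
      ex (β * Real.exp v) * ∑ m ∈ Icc 1 (3 * X), ((g m : ℝ) : ℂ) / m *
        ((R * Real.exp (-(R ^ 2 * (v - Real.log m) ^ 2 / 2)) : ℝ) : ℂ)‖ ≤
    C * G * (1 + |β| * h) / R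

/-- JB (the oscillating integral).

Proof. The length of the interval is `log(1 + h/y) ≤ h/y`. Let `Φ(v) = 2πβe^v + tv`,
`Φ'(v) = 2πβe^v + t`, `t0 = t + 2πβy = Φ'(log y)`, `|Φ'(v) - t0| ≤ 2π|β|h ≤ (2π/14)|t0| ≤ 0.45|t0|`, so
`Φ'` has constant sign, is monotone and `|Φ'| ≥ 0.55|t0| =: m`. Integration by parts:
`∫ e^{iΦ} = [e^{iΦ}/(iΦ')] + ∫ e^{iΦ} Φ''/(iΦ'²)`, the boundary terms are `≤ 2/m` and the last integral is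
`≤ ∫ |Φ''|/Φ'² = |1/Φ'(v1) - 1/Φ'(v0)| ≤ 1/m`. Total `≤ 3/m ≤ 8/|t0|`. -/
def StJb : Prop := ∀ (y h β t : ℝ), 0 < y → 0 ≤ h →
  ‖JJb y h β t‖ ≤ h / y ∧
  (14 * |β| * h ≤ |t + 2 * Real.pi * β * y| → 0 < |t + 2 * Real.pi * β * y| →
    ‖JJb y h β t‖ ≤ 8 / |t + 2 * Real.pi * β * y|)

/-- WS (summing over windows of length `W = y/h`).

Proof. Put `t0 = -2πβy`, `I_j = ∫_{jW}^{(j+1)W} ‖a‖`, `d_j` = distance of `t0` from `[jW, (j+1)W]`. As `a` is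
integrable and `‖JJb‖ ≤ h/y`, `∫ a JJb = ∑_{j∈ℤ} ∫_{window}`. By JB, on the `j`-th window `‖JJb‖ ≤ h/y` always and
`‖JJb‖ ≤ 8/d_j = (h/y)(8W/d_j)` if `d_j ≥ 14|β|h` and `d_j ≥ W`. So `|∫ a JJb| ≤ (h/y) ∑ c_j I_j` with
`c_j = 1` if `d_j < 14|β|h + W`, `c_j = 8W/d_j` otherwise. The number of `j` with `d_j < D` is at most
`2D/W + 3`, and the `d_j ≥ W` on each side of `t0` are at least `W, 2W, 3W, ...`, so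
`∑ c_j² ≤ 28|β|h/W + 5 + 2·64·∑ 1/k² ≤ C(1 + |β|h²/y)`. Cauchy-Schwarz with `∑ I_j² ≤ E` (limit `J → ∞`). -/
def StWs : Prop := ∃ C : ℝ, 0 < C ∧ ∀ (a : ℝ → ℂ) (y h β E : ℝ), Integrable a → 0 < h → h ≤ y →
  0 ≤ E → (∀ J : ℕ, wsq (fun t => ‖a t‖) (y / h) J ≤ E) →
  ‖∫ t : ℝ, a t * JJb y h β t‖ ≤ C * (h / y) * √((1 + |β| * h ^ 2 / y) * E)

/-- MW (medium arcs, weighted).

Proof. `X = y/2` (so `y ∈ {2X, 2X+1}`, `y + h ≤ 3X`), `ℓ = log y`. Put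
`R = (1 + |β|X + X/h) ℓ^D`, `D = A + 3`. Since `X/h ≤ y^{1-η}`, `1-η < 1/5`, and
`|β|X ≤ y²ℓ^{B'}/h² ≤ y^{2-2η} ℓ^{B'}`, `2-2η < 2/5`: `1 ≤ R ≤ X`, `√2 R ≤ √X` and `1 ≤ y/h ≤ X^{1/5-ε}` with
`ε = (η - 4/5)/2` for large `y`. `|gw w X q u n| ≤ G := log(3X) + 1` (`gw_le` in `Helper16/GK/M_WIN.lean`). SHP: the sum is
`(2π)^{-1/2} ∫ e(βe^v) V(v) dv + O(G(1+|β|h)/R)`, `V(v) = ∑ (g(m)/m) R e^{-R²(v-log m)²/2}`, and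
`(1+|β|h)/R ≤ (h/X) ℓ^{-D}`. As `R e^{-R²s²/2} = (2π)^{-1/2} ∫ e^{-t²/(2R²)} e^{its} dt`
(`fourierIntegral_gaussian`), `V(v) = (2π)^{-1/2} ∫ e^{-t²/(2R²)} GB w X q u t · e^{itv} dt`, and by Fubini
`∫ e(βe^v) V(v) dv = (2π)^{-1/2} ∫ e^{-(t/(√2R))²} GB(t) JJb y h β t dt`. WS with
`a(t) = e^{-(t/(√2 R))²} GB w X q u t`; its hypothesis is TOTW with this `ε`,
`T = √2 R`, `W = y/h`, exponent `A' = 2A + B' + 4`: `E = log^{-A'} X`. The result is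
`≤ C (h/y) √(2ℓ^{B'} E) ≤ (h/y) ℓ^{-A}/2` for large `y`. -/
def StMw : Prop := ∀ (η η' : ℝ), 4 / 5 < η → η ≤ η' → η' < 1 → ∀ w, IsW w → ∀ A B B' : ℕ,
  ∃ y₀ : ℕ, ∀ y h q u : ℕ, y₀ ≤ y → (y : ℝ) ^ η ≤ h → (h : ℝ) ≤ (y : ℝ) ^ η' → 1 ≤ q →
  (q : ℝ) ≤ Real.log y ^ B → ∀ β : ℝ, |β| ≤ y * Real.log y ^ B' / (h : ℝ) ^ 2 →
  ‖∑ m ∈ Ioc y (y + h), ((gw w ((y / 2 : ℕ) : ℝ) q u m / m : ℝ) : ℂ) * ex (m * β)‖ ≤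
    (h : ℝ) / y / Real.log y ^ A

open Classical in
/-- MED (medium arcs).

Proof. Take `w` from `StWE` (`Helper15/AB/M_WE.lean`), it is Lipschitz (`IsW.smooth`, compact support; see
M_WIN). For `n ∈ (y, y+h]`, `X = y/2`: `log(n/X) ∈ [0.6, 0.8]`, and `w(log(n/X))/n = w0/y + O(h/y²)`,
`w0 = w(log(y/X)) ≥ 0.001`. With `b(n) = Λ(n) 1_{n≡u(q)} - 1_{(u,q)=1}/φ(q)`, `|b(n)| ≤ 2ℓ+2`, MW gives
`|∑ b(n) e(nβ)| ≤ (y/w0) ((h/y) ℓ^{-A-2} + C h (h/y²) ℓ) ≤ h ℓ^{-A}/2`, since `h/y ≤ y^{η'-1}`. Finally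
`0 ≤ Λ - th` and `∑_{n ≤ 2y} (Λ - th) ≤ C √y ℓ²` (`StTh`, `Helper48/BK`), at most `h ℓ^{-A}/2` as
`h ≥ y^{4/5}`. -/
def StMed : Prop := ∀ (η η' : ℝ), 4 / 5 < η → η ≤ η' → η' < 1 → ∀ A B B' : ℕ,
  ∃ y₀ : ℕ, ∀ y h q u : ℕ, y₀ ≤ y → (y : ℝ) ^ η ≤ h → (h : ℝ) ≤ (y : ℝ) ^ η' → 1 ≤ q →
  (q : ℝ) ≤ Real.log y ^ B → ∀ β : ℝ, |β| ≤ y * Real.log y ^ B' / (h : ℝ) ^ 2 →
  ‖∑ n ∈ (Ioc y (y + h)).filter (fun n => n ≡ u [MOD q]), (th n : ℂ) * ex (n * β) -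
    (((if Nat.Coprime u q then 1 / (Nat.totient q : ℝ) else 0) : ℝ) : ℂ) *
      ∑ n ∈ Ioc y (y + h), ex (n * β)‖ ≤ h / Real.log y ^ A

/-- SUP (exponential sums of `th - LQ` over short intervals; compare `StDvq`, `Helper1/GK/M_DVQ.lean`).

Proof. `ℓ = log y`, `B = max B0 (2A + 20)`, `B' = 3B + 2A + 20`. Given `α`, Dirichlet with `Q0 = ⌊h²/(y ℓ^{B'})⌋`
(large, as `h² ≥ y^{8/5}`): `(a, q) = 1`, `1 ≤ q ≤ Q0`, `|α - a/q| ≤ 1/(q Q0) ≤ 2 y ℓ^{B'}/(q h²)`.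
(1) `q > Q`: VAUS with `U = ⌊y^{1/3}⌋` (`U² ≤ h`, `q ≤ h`, `Apx α a q` as `1/(qQ0) ≤ 1/q²`):
`|SI Λ| ≤ C (h ℓ^{-B/2} + √(2 y^{2/3} h) + h ℓ^{-B'/2} + y^{2/3}) ℓ^7 ≤ h ℓ^{-A-1}`; `Λ → th` by `StTh` (error
`C√y ℓ²`). `SI LQ = Sx LQ (y+h) - Sx LQ y`, by LMI (`1/(qQ0) ≤ 1/(2qQ)`) `≤ 2 q Q² ≤ 2 Q0 Q² ≤
2 h² ℓ^{2B+2-B'}/y ≤ h ℓ^{-A-1}`.
(2) `q ≤ Q ≤ ℓ^{B+1}`: `α = a/q + β`, `|β| ≤ 2yℓ^{B'}/h² ≤ y ℓ^{B'+1}/h²`.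
`SI (th - LQ) = ∑_{u<q} e(au/q) ∑_{n ≡ u} (th - LQ)(n) e(nβ)`. MED (with `A' = A + B + 3`, `B+1`, `B'+1`) treats
`th`. For `LQ`: `d(n) = LQ Q n 1_{n≡u} - 1_{(u,q)=1}/φ(q)` has all sums over `(y, y+t]` at most `4Q²` in absolute
value (LAP twice, `q ≤ Q`; note `y·(1/φ) ` cancels), partial summation:
`|∑_{(y,y+h]} d(n) e(nβ)| ≤ 4Q² (1 + 2π|β|h) ≤ h ℓ^{-A'}`. The two main terms
`1_{(u,q)=1}/φ(q) ∑ e(nβ)` cancel. Sum over `u < q ≤ ℓ^{B+1}`. -/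
def StSup : Prop := ∀ (η η' : ℝ), 4 / 5 < η → η ≤ η' → η' < 1 → ∀ A B0 : ℕ,
  ∃ B y₀ : ℕ, B0 ≤ B ∧ ∀ y h Q : ℕ, y₀ ≤ y → (y : ℝ) ^ η ≤ h → (h : ℝ) ≤ (y : ℝ) ^ η' →
  Real.log y ^ B ≤ Q → (Q : ℝ) ≤ Real.log y ^ (B + 1) → ∀ α : ℝ,
  ‖SI (fun n => th n - LQ Q n) y h α‖ ≤ h / Real.log y ^ A

end Pool.Agent.Helper58.SU
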