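import Pool.Agent.Helper58.SU.StP

/-!
# Project SU, part Q: circle method with short windows of primes, theorem U
-/

set_option autoImplicit false

namespace Pool.Agent.Helper58.SU

open Finset ArithmeticFunction MeasureTheory
open Pool.Agent.Helper48.BK (ex th Sx Apx)
open Pool.Agent.Helper2.MR (ch)
open Pool.Agent.Helper23.GK

/-- CNVS (convolution bound in short intervals).

Proof. Apply `StCnv` (`Helper23/GK/StG.lean`, proved: `Helper29.GK.hCNV`) with `Y = y + h`, `X = Z + H`,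
`f' = f` on `(y, y+h]` and `0` elsewhere, `g' = g` on `(Z - (y+h), Z+H]` and `0` elsewhere:
`Sx f' (y+h) α = SI f y h α`. For `N ∈ (Z, Z+H]` and `n ∈ (y, y+h]`, `n < N`, the number `N - n` lies in
`(Z - (y+h), Z+H]` (natural subtraction; if `Z ≤ y+h` this says `0 < N - n`), so the inner sums agree;
drop the `N ≤ Z` on the left. -/
def StCnvs : Prop := ∀ (f g : ℕ → ℝ) (y h Z H : ℕ) (D : ℝ), (∀ α, ‖SI f y h α‖ ≤ D) →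
  ∑ N ∈ Ioc Z (Z + H), (∑ n ∈ (Ioc y (y + h)).filter (fun n => n < N), f n * g (N - n)) ^ 2 ≤
    D ^ 2 * ∑ n ∈ Ioc (Z - (y + h)) (Z + H), g n ^ 2

/-- MNQS (main term in short windows; adapt `Helper29/GK/M_MNQ.lean`, 133 lines). Proof. `n = N - m`,
`m ∈ [N-y-h, N-y)`, i.e. `m ∈ (N-y-h-1, N-y-1]`; for `m ≡ u (mod q)`, `c_q(n) = c_q(N-u)`. So
`∑ LQ Q n th(N-n) = ∑_{q≤Q} μ(q)/φ(q) ∑_{u mod q} c_q(N-u) (1_{(u,q)=1} h/φ(q) + dsc (N-y-h-1) h q u)`;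
the main part is `h SQ Q N` by RAM (c), the error is bounded with RAM (b) (`|c_q| ≤ φ(q)`). -/
def StMnqs : Prop := ∀ (Q N y h : ℕ), y + h < N →
  |∑ n ∈ Ioc y (y + h), LQ Q n * th (N - n) - h * SQ Q N| ≤
    ∑ q ∈ Icc 1 Q, ∑ u ∈ range q, |dsc (N - (y + h) - 1) h q u|

/-- INJ (the starting points are hit at most twice).

Proof. Put `s(N) = N - (yB c X H N + h) - 1`. By the third hypothesis `X/2 ≤ s(N) ≤ 2X`. Suppose `s(N) = s(N')`,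
`N < N'`, both in `(X, 2X]`. Then `N' - N = yB(N') - yB(N)`, so by the last hypothesis
`N' - N ≤ (N' - N)/4 + H/4 + 1`, i.e. `N' - N ≤ H/3 + 4/3 < H` (as `H ≥ 12`). On one block
`(X + iH, X + (i+1)H]` the function `yB` is constant, so `N` and `N'` lie in different blocks. Hence three
numbers `N < N' < N''` with the same `s` lie in three different blocks, which forces `N'' - N ≥ H`, a
contradiction. So every value is taken at most twice, and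
`∑_N F(s(N)) = ∑_s F(s) #{N : s(N) = s} ≤ 2 ∑_s F(s)`. -/
def StInj : Prop := ∀ (c : ℝ) (X H h : ℕ) (F : ℕ → ℝ), 0 < c → 12 ≤ H → (∀ n, 0 ≤ F n) →
  (∀ N ∈ Ioc X (2 * X), yB c X H N + h + 1 ≤ X / 2) →
  (∀ N ∈ Ioc X (2 * X), ∀ N' ∈ Ioc X (2 * X), N ≤ N' →
    ((yB c X H N' : ℝ) - yB c X H N) ≤ ((N' : ℝ) - N) / 4 + H / 4 + 1) →
  ∑ N ∈ Ioc X (2 * X), F (N - (yB c X H N + h) - 1) ≤ 2 * ∑ s ∈ Icc (X / 2) (2 * X), F s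

/-- FU1 (fixed length `h` of the window; all `N ∈ (X, 2X]`, the window starts at `yB`).

Proof (compare `Helper57/GK/M_FN1.lean`). `L = log X`, `δ = dl κ > 0`, `H = ⌈X^{1/2+κ-δ}⌉` (given), blocks
`(Z_i, Z_i+H]`, `Z_i = X + iH`, `0 ≤ i ≤ X/H`, `y_i = ⌊c√Z_i⌋ ≍ √X`, so `log y_i ∈ [L/3, L]` and `y_i^η ≤ h ≤ y_i^η'` for
`η = 2κ - ε`, `η' = 2κ + ε` with `ε` so small that `4/5 < η`, `η' < 1` (large `X`).
SUP with `A1 = 2A + 8` and `B0 = 4A + 20` gives `B`; choose one `Q` with `log y_i ^ B ≤ Q ≤ log y_i ^ (B+1)` for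
all `i` (e.g. `Q = ⌈L^B⌉`, as `log y_i ≤ L` and `L^B + 1 ≤ (L/3)^{B+1}`), `D = h/(L/3)^{A1}`.
(1) `S1(N) = ∑_{n∈(y_i,y_i+h]} (th - LQ)(n) th(N-n)` (all `n < N`). CNVS for each block:
`∑_{N∈block} S1² ≤ D² ∑_{m ∈ (Z_i-y_i-h, Z_i+H]} th(m)² ≤ D² · 3H · (2L)²` (`H ≥ y_i + h` as `1/2+κ-δ > 1/2, κ`), and
there are at most `X/H + 1 ≤ 2X/H` blocks: `∑_N S1² ≤ 24 D² X L²`.
(2) By MNQS the rest is `h SQ Q N + O(∑_{q≤Q,u<q} |dsc (N-y_i-h-1) h q u|)`; the square of the error is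
`≤ Q² ∑_{q,u} dsc²` (at most `Q²` pairs), and for each `(q,u)` INJ with `F(s) = dsc s h q u ^ 2` (last hypothesis of INJ:
`√Z' - √Z ≤ (Z'-Z)/√X`, `ZB(N') - ZB(N) ≤ N'-N + H`, factor `c/√X ≤ 1/4`, and `+1` for the floors) and WINU at
the four scales `X' ∈ {⌊X/2⌋-1, ⌊X/2⌋, ⌊X/2⌋+1, X}` (the intervals `(X', 2X']` cover `[⌊X/2⌋, 2X]`), with exponents
`A'' = 2A + 4B + 24`, `B + 1` (WINU needs `q ≤ log^{B+1} X'` and `h ≤ 4 X'^κ`: from `h ≤ 2X^κ`, `X' ≥ X/4`):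
`∑_N dsc² ≤ 8 X X^{2κ}/log^{A''}(X/4)`. Total `≤ Q⁴ · 8X X^{2κ} / log^{A''}(X/4) ≤ X h² L^{-2A-8}` (`Q ≤ 2L^B`,
`h ≥ X^κ/2`).
(3) SSC (`StSsc`, all even `N ≤ 2X`): `∑_N h|SQ - SS| ≤ C h X/√Q ≤ h X L^{-2A-5}`.
Markov three times: each of the three sets `{|·| > h/(3L^A)}` has at most `X/(3L^A)` elements. -/
def StFu1 : Prop := ∀ (c κ : ℝ), 0 < c → 2 / 5 < κ → κ < 1 / 2 → ∀ A : ℕ,
  ∃ X0 : ℕ, ∀ X : ℕ, X0 ≤ X → ∀ (H h : ℕ), H = ⌈(X : ℝ) ^ (1 / 2 + κ - dl κ)⌉₊ →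
  (X : ℝ) ^ κ / 2 ≤ h → (h : ℝ) ≤ 2 * (X : ℝ) ^ κ →
  (((Ioc X (2 * X)).filter (fun N => Even N ∧ (h : ℝ) / Real.log X ^ A <
    |∑ n ∈ (Ioc (yB c X H N) (yB c X H N + h)).filter (fun n => n < N), th n * th (N - n) -
      SS N * h|)).card : ℝ) ≤ X / Real.log X ^ A

/-- FU2 (all `N ∈ (X, 2X]`, the window is `(c√N, c√N + N^κ]`).

Proof. `L = log X`, `δ = dl κ`, `H` as in FU1. Cut `(X, 2X]` into at most `L^{A+6} + 1` pieces `(Y, Y+V]`,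
`V = ⌈X/L^{A+6}⌉`. For one piece let `h = ⌊Y^κ⌋` (`X^κ/2 ≤ h ≤ 2X^κ` as `Y ≤ 2X`, `κ < 1/2`), and apply FU1 with exponent
`A1 = 2A + 12`: all but `X/L^{A1}` of the even `N ∈ (X,2X]` satisfy its inequality with this `h`; all pieces
together: all but `(L^{A+6}+1) X/L^{2A+12} ≤ X/L^{A+1}` satisfy it with the `h` of their piece. For such an `N`
compare with `RU`: `Z = ZB X H N ∈ [N-H, N]`, so `0 ≤ c√N - c√Z ≤ cH/√X`, and `0 ≤ N^κ - Y^κ ≤ V Y^{κ-1} ≤ 2X^κ/L^{A+6}`;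
the end points `⌊c√N⌋`, `⌊c√N+N^κ⌋` differ from `yB`, `yB+h` by at most
`E := cH/√X + 2X^κ/L^{A+6} + 3 ≤ 3X^κ/L^{A+6}` (`H/√X ≤ 2X^{κ-δ}`). `RU N a b = ∑_{⌊a⌋<n≤⌊b⌋, n<N} th n th(N-n)` and each
term is `≤ (2L)²`, so `|RU N (c√N) (c√N+N^κ) - ∑_{n∈(yB,yB+h], n<N} th n th(N-n)| ≤ 2(E+1)(2L)²`, and
`SS N |N^κ - h| ≤ C L (E + 1)` (`StSsa`). Both are `≤ X^κ L^{-A-2}` for large `X`, FU1's error is `h/L^{A1}`, and
`N^κ/log^A N ≥ X^κ/(2L)^A`: to absorb `2^A` do everything with `A + 1` instead of `A`. -/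
def StFu2 : Prop := ∀ (c κ : ℝ), 0 < c → 2 / 5 < κ → κ < 1 / 2 → ∀ A : ℕ,
  ∃ X0 : ℕ, ∀ X : ℕ, X0 ≤ X → ((ExU c κ A (Ioc X (2 * X))).card : ℝ) ≤ X / Real.log X ^ A

/-- FU3 (all scales). Proof: as `StFn3`, see `Helper23/GK/M_FN3.lean` (`FN3_growth`, `FN3_ratio`, and the
same union argument with `ExU c κ A` instead of `Exc A K`). -/
def StFu3 : Prop := ∀ (c κ : ℝ), 0 < c → 2 / 5 < κ → κ < 1 / 2 → ∀ A : ℕ,
  ∃ C : ℝ, ∀ X : ℕ, 2 ≤ X → ((ExU c κ A (Icc 1 X)).card : ℝ) ≤ C * X / Real.log X ^ A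

/-- FIN (theorem U). Proof: FU3 with exponent `A + 1` bounds the number of even `N ≤ X` with
`|RU - SS N N^κ| > N^κ/log^{A+1} N`; the other `N ≥ N0` satisfy the second property, and
`RU ≥ N^κ(SS N - 1/log N) > 0` (`SS N ≥ 1` by `StSsa`), so there is a prime `p ∈ (⌊c√N⌋, ⌊c√N+N^κ⌋]`, i.e.
`c√N < p ≤ c√N + N^κ`, with `p < N` and `N - p` prime. Small `N` (`N < N0`) go into the constant
(`X/log^A X` is bounded below by a positive constant). -/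
def StFinU : Prop := ∀ (c κ : ℝ) (A : ℕ), 0 < c → 2 / 5 < κ → κ < 1 / 2 → ∃ C : ℝ,
  ∀ X : ℕ, 2 ≤ X →
    ({N : ℕ | 4 < N ∧ N ≤ X ∧ Even N ∧
      ¬ ((∃ p : ℕ, p.Prime ∧ c * √(N : ℝ) < p ∧ (p : ℝ) ≤ c * √(N : ℝ) + (N : ℝ) ^ κ ∧
          (N - p).Prime) ∧
        |RU N (c * √(N : ℝ)) (c * √(N : ℝ) + (N : ℝ) ^ κ) - SS N * (N : ℝ) ^ κ| ≤
          (N : ℝ) ^ κ / Real.log N ^ A)}.ncard : ℝ) ≤ C * X / Real.log X ^ A

end Pool.Agent.Helper58.SU
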