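import Pool.Agent.Helper58.SU.StQ
import Pool.Agent.Helper63.GW.StA

/-!
# Project SU, part U: the discrepancy of primes in intervals of length `X^κ`, `κ > 2/5`, for almost all
starting points. `L = log X`, `T = X^τ`, `τ < 3/5`.
-/

set_option autoImplicit false

namespace Pool.Agent.Helper58.SU

open Finset ArithmeticFunction MeasureTheory
open Pool.Agent.Helper48.BK (ex th Sx Apx)
open Pool.Agent.Helper2.MR (ch)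
open Pool.Agent.Helper15.AB (IsW)
open Pool.Agent.Helper23.GK
open Pool.Agent.Helper63.GW

/-- TUPU (every tuple of blocks is small in mean square up to `2X^τ`, `τ < 3/5`). Compare `StTup` and its proof
`Helper42/GK/M_TUP.lean`.

Proof. We may assume `τ ≥ 1/2` (the set grows with `τ`). Put `P_i = 2^{e i}`, `S = univ \ {i}` for the selected `i`. All
`e i ≤ ∑ e ≤ log_2(1024 X) ≤ 2L`. `∏_{j≠i} P_j ≥ X/(16 P_i)`.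

Case 1: some `i` has `X^{1/100} ≤ P_i ≤ X^{1-τ}`. BKT with `c₀ = 1/100` and exponent `A'`: `‖bk χ i (e i) t‖ ≤ L^{-A'}` on
the set (`2 X^τ ≤ X`, and `L^{B1}/2 ≥ L^{B1'}` for `B1 = B1'+1`, `B1'` from BKT). MEA8 with `c = 0`, `T = 2X^τ`, `S = univ \ {i}`:
`∫ ∏_S ‖bk‖² ≤ C (2X^τ·16 X^{1-τ}/X + 1)(1 + 2L)^C ≤ 33 C (1+2L)^C`. Total `≤ L^{-2A'} 33 C (1+2L)^C ≤ L^{-A}`.

Case 2: no such `i`. Then every block is small (`P_i < X^{1/100}`) or large (`P_i > X^{1-τ} ≥ X^{2/5}`). The blocks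
`i < 4` are small (`P_i ≤ 4X^{1/4}`). At most two blocks are large (`X^{6/5} > 1024 X`). Let `k` be the index with
the largest `P_k =: K`. Then `X/16 ≤ ∏ P_i ≤ K² X^{8/100}`, so `K ≥ X^{0.45}` and `k ≥ 4`. BKS and
`(a+b+c)² ≤ 3(a²+b²+c²)`: `‖bk χ k (e k) t‖² ≤ 3C²q⁴(1+2L)²(1/t⁴ + 1/K + 2X^τ/K²)` on the set. The part with
`1/t⁴`: the other seven factors are `≤ 4(1+2L)` (BKB), `∫_{|t| ≥ L^{B1}/2} t^{-4} dt ≤ 6 L^{-3B1}`: total `≤ L^{C'-3B1}`.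
The rest: MEA8 for `S = univ \ {k}`, `∫ ≤ C(32 K X^{τ-1} + 1)(1+2L)^C`, and
`(1/K + 2X^τ/K²)(32 K X^{τ-1} + 1) = 32X^{τ-1} + 1/K + 64 X^{2τ-1}/K + 2X^τ/K² ≤ 100 X^{-1/4}` since `τ < 3/5`,
`K ≥ X^{0.45}`. -/
def StTupu : Prop := ∀ τ : ℝ, τ < 3 / 5 → ∀ A B : ℕ, ∃ B1 X0 : ℕ, ∀ X : ℕ, X0 ≤ X →
  ∀ (q : ℕ) [NeZero q] (χ : DirichletCharacter ℂ q) (e : Fin 8 → ℕ), (q : ℝ) ≤ Real.log X ^ B →
  (∀ i : Fin 8, (i : ℕ) < 4 → (2 : ℝ) ^ e i ≤ 4 * (X : ℝ) ^ (1 / 4 : ℝ)) →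
  X ≤ 16 * 2 ^ (∑ i, e i) → 2 ^ (∑ i, e i) ≤ 1024 * X →
  ∫ t in {t : ℝ | Real.log X ^ B1 / 2 ≤ |t| ∧ |t| ≤ 2 * (X : ℝ) ^ τ}, ‖PP8 χ e t‖ ^ 2 ≤
    1 / Real.log X ^ A

/-- HIFU (high frequencies). Compare `StHif` and its proof `Helper76/GK/M_HIF.lean` (734 lines).

Proof. We may assume `1/2 ≤ τ`. Choose `u` minimal with `3X ≤ 2^{4u}`, so `2^u ≤ 2 (3X)^{1/4} ≤ 4X^{1/4}` and `u ≤ C L`. In
DEC4 there are at most `(4u+1)^8 ≤ C L^8` tuples, all with `e i ≤ u` for `i < 4`, and `|cf e| ≤ 15`, so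
`|GA|² ≤ C L^8 ∑_e (∫|K|) ∫ |K(ξ)| |PP8(t-ξ)|² dξ`. Integrate over `R = {L^{B1} ≤ |t| ≤ X^τ}` and swap.
`|ξ| ≤ L^{B1}/2`: `R - ξ` lies in the set of TUPU (with `A' = A + 20`): `≤ L^{-A'} ∫|K|`. `L^{B1}/2 < |ξ| ≤ X`:
`R - ξ ⊆ [-2X, 2X]`, MEA8 with `S = univ`, `c = 0`, `T = 2X` gives `≤ L^{C'}`, and `∫_{|ξ|>L^{B1}/2}|K| ≤ C L^{-B1}`.
`|ξ| > X`: `|PP8| ≤ (4(1+2L))^8` (BKB), `|R| ≤ 2X^τ`, `∫_{|ξ|>X}|K| ≤ 2C/X`. (`B1` may be enlarged: the set of TUPU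
shrinks.) -/
def StHifu : Prop := ∀ w, IsW w → ∀ τ : ℝ, τ < 3 / 5 → ∀ A B : ℕ, ∃ B1 X0 : ℕ, ∀ X : ℕ, X0 ≤ X →
  ∀ (q : ℕ) [NeZero q] (χ : DirichletCharacter ℂ q), (q : ℝ) ≤ Real.log X ^ B →
  ∫ t in {t : ℝ | Real.log X ^ B1 ≤ |t| ∧ |t| ≤ (X : ℝ) ^ τ}, ‖GA w χ X t‖ ^ 2 ≤
    1 / Real.log X ^ A

/-- TOTU (the full Gaussian mean square). Compare `StTot` and its proof `Helper47/GK/M_TOT.lean` (453 lines, the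
helper lemmas `mid_cop`, `gauss_split`, `GB_bound_TOT`, `GB_ncop_TOT`, `smooth_TOT` can be imported).

Proof. Let `T = X^τ` and `T' = T L ≤ X^{τ'}` with `τ' = (τ + 3/5)/2` (`X` large), `1/2 ≤ τ` without loss (the Gaussian grows
with `T`). (i) `|t| ≤ L^{B1}` (`B1` from HIFU for `τ'`, `A + 3`, `B`): LOW with `A' = A + 2B1 + 3`. (ii) `L^{B1} ≤ |t| ≤ T'`: as in
`StTot`: if `(u,q) = 1` the average over `χ` of HIFU, and the smooth sum `O(t^{-2} + |t|/X)` with mean square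
`≤ C(L^{-3B1} + T'^3/X²)`, `T'^3 ≤ X^{9/5}`; if `(u,q) > 1`: `|GB| ≤ L^C/X`, mean square `≤ 2T' L^{2C}/X²`.
(iii) `|t| > T'`: `|GB| ≤ C L`, `∫_{|t|>T'} e^{-(t/T)²} dt ≤ C T e^{-L²/2}`. -/
def StTotu : Prop := ∀ w, IsW w → ∀ τ : ℝ, τ < 3 / 5 → ∀ A B : ℕ, ∃ X0 : ℕ, ∀ X : ℕ, X0 ≤ X →
  ∀ (q u : ℕ), 1 ≤ q → (q : ℝ) ≤ Real.log X ^ B →
  ∫ t : ℝ, Real.exp (-(t / (X : ℝ) ^ τ) ^ 2) * ‖GB w X q u t‖ ^ 2 ≤ 1 / Real.log X ^ A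

/-! WINU is the statement `StWinu` of `Helper58/SU/Defs.lean`; it follows from TOTU and `StSha` (proved:
`Helper1.GK.hSHA`). Compare `StWin` and its proof `Helper16/GK/M_WIN.lean` (718 lines; its main lemma
`WIN.total` holds for every `T` and can be imported, only the final estimate changes).

Proof. `τ = ((1 - κ) + 3/5)/2`, so `1 - κ < τ < 3/5`. `w` from `StWE`, `X' = 9X/10`, `T = X'^τ`, `1 ≤ T ≤ X'`, `δ = 1/log^{A'} X'`,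
`A' = A + 4`, from TOTU. `WIN.total` gives (`H = h`)
`∑_N dsc² ≤ 6000000 (20 h² X δ + X (2X C (log 3X + 1)/T)² + X (h²/X (log 3X + 1)(1+M))²) + 2 h² Ct √(3X) log³(3X)`, and here
`X log(3X)/T ≤ 2 X^{1-τ} log(3X) ≤ X^κ L^{-A-1}` (power saving, `1 - τ < κ`), `h²/X ≤ 16 X^{2κ-1} ≤ 16`, and
`√X L^3 ≤ X L^{-A-1}`. For `h = 0` both sides are trivial. -/

end Pool.Agent.Helper58.SU
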