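import Pool.Agent.Helper23.GK.All
import Pool.Agent.Helper58.SU.M_TWQ
import Pool.Agent.Helper19.SU.M_SHP
import Pool.Agent.Helper2.SU.M_TOTU
import Pool.Agent.Helper2.SU.M_WINU
import Pool.Agent.Helper29.SU.M_MNQS
import Pool.Agent.Helper31.SU.M_HIFU
import Pool.Agent.Helper31.SU.M_JB
import Pool.Agent.Helper31.SU.M_WS
import Pool.Agent.Helper36.SU.M_CNVS
import Pool.Agent.Helper36.SU.M_FU3
import Pool.Agent.Helper4.SU.M_SUP
import Pool.Agent.Helper61.SU.M_TUPU
import Pool.Agent.Helper75.SU.M_FU1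
import Pool.Agent.Helper79.SU.M_VAUS
import Pool.Agent.Helper80.SU.M_TIIS
import Pool.Agent.Helper82.SU.M_FU2
import Pool.Agent.Helper84.SU.M_MED
import Pool.Agent.Helper85.SU.M_MW

/-!
# Project SU: assembly from the window input
-/

set_option autoImplicit false

namespace Pool.Agent.Helper58.SU

open Pool.Agent.Helper48.BK (hGeo1 hGeo2 tTI hDiv)
open Pool.Agent.Helper23.GK
open Pool.Agent.Helper63.GW (StMea8 StBkt StBks StBkb StDec4)

namespace TopSU

theorem tiis : StTiis := Pool.Agent.Helper80.SU.hTIIS hGeo1 hGeo2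
theorem vaus : StVaus := Pool.Agent.Helper79.SU.hVAUS tTI tiis hGeo1 hDiv
theorem shp : StShp := Pool.Agent.Helper19.SU.hSHP
theorem jb : StJb := Pool.Agent.Helper31.SU.hJB
theorem ws : StWs := Pool.Agent.Helper31.SU.hWS jb
theorem cnvs : StCnvs := Pool.Agent.Helper36.SU.hCNVS AllGK.cnv
theorem inj : StInj := Pool.Agent.Helper36.SU.hINJ
theorem mnqs : StMnqs := Pool.Agent.Helper29.SU.hMNQS AllGK.ram

theorem mw (h : StTotw) : StMw := Pool.Agent.Helper85.SU.hMW h shp ws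
theorem med (h : StTotw) : StMed := Pool.Agent.Helper84.SU.hMED (mw h)
theorem sup (h : StTotw) : StSup :=
  Pool.Agent.Helper4.SU.hSUP vaus (med h) AllGK.lap AllGK.lmi

theorem winu (h1 : StMea8) (h2 : StBkt) (h3 : StBks) (h4 : StBkb) (h5 : StDec4) : StWinu :=
  Pool.Agent.Helper2.SU.hWINU (Pool.Agent.Helper2.SU.hTOTU
    (Pool.Agent.Helper31.SU.hHIFU h5 (Pool.Agent.Helper61.SU.hTUPU h1 h2 h3 h4) h1 h4)
    AllGK.low) AllGK.sha

/-- theorem U from the window theorem and the facts on block polynomials -/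
theorem finU (h : StTotw) (h1 : StMea8) (h2 : StBkt) (h3 : StBks) (h4 : StBkb) (h5 : StDec4) :
    StFinU :=
  Pool.Agent.Helper36.SU.hFINU (Pool.Agent.Helper36.SU.hFU3 (Pool.Agent.Helper82.SU.hFU2
    (Pool.Agent.Helper75.SU.hFU1 (sup h) cnvs mnqs inj (winu h1 h2 h3 h4 h5) AllGK.ssc)
    AllGK.ssa)) AllGK.ssa

end TopSU

end Pool.Agent.Helper58.SU
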